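import Pool.Agent.Helper17.CT.Piece

set_option autoImplicit false

/-!
FS-3: the orbit of two coded pairings.
-/

namespace Pool.Agent.Helper17.CT

namespace SingAux

lemma tb_eq (a i : ℕ) : tb a i = a.testBit i := by
  have h : tb a i = Nat.beq ((a >>> i) % 2) 1 := rfl
  rw [h, Nat.testBit_eq_decide_div_mod_eq, Nat.shiftRight_eq_div_pow, Bool.eq_iff_iff,
    Nat.beq_eq, decide_eq_true_iff]

lemma orb_succ (m b x0 f x acc : ℕ) : orb m b x0 (f + 1) x acc =
    cond (Nat.beq (d4 b (d4 m x)) x0) (some ((acc ||| (1 <<< x)) ||| (1 <<< (d4 m x))))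
      (orb m b x0 f (d4 b (d4 m x)) ((acc ||| (1 <<< x)) ||| (1 <<< (d4 m x)))) := rfl

lemma testBit_acc (acc x y i : ℕ) : ((acc ||| (1 <<< x)) ||| (1 <<< y)).testBit i = true ↔
    acc.testBit i = true ∨ i = x ∨ i = y := by
  rw [Nat.testBit_or, Nat.testBit_or, Bool.or_eq_true, Bool.or_eq_true, Nat.one_shiftLeft,
    Nat.one_shiftLeft, Nat.testBit_two_pow, Nat.testBit_two_pow, decide_eq_true_iff,
    decide_eq_true_iff, or_assoc, eq_comm (a := x), eq_comm (a := y)]

/-- the invariant of the orbit -/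
structure Inv {k : ℕ} (m b : Fin k → Fin k) (x0 x : Fin k) (acc : ℕ) : Prop where
  lt : ∀ i, acc.testBit i = true → i < k
  use : m x ≠ x
  uses : ∀ i : Fin k, acc.testBit i = true → m i ≠ i
  cm : ∀ i : Fin k, acc.testBit i = true → acc.testBit (m i) = true
  cb : ∀ i : Fin k, acc.testBit i = true → acc.testBit (b i) = true ∨ b i = x ∨ i = x0
  bx : x = x0 ∨ acc.testBit (b x) = true
  st : x = x0 ∨ acc.testBit x0 = true
  reach : Relation.ReflTransGen (fun x y => y = m x ∨ y = b x) x0 x
  reachs : ∀ i : Fin k, acc.testBit i = true →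
    Relation.ReflTransGen (fun x y => y = m x ∨ y = b x) x0 i

/-- the result of the orbit -/
structure Res {k : ℕ} (m b : Fin k → Fin k) (x0 : Fin k) (acc : ℕ) : Prop where
  lt : ∀ i, acc.testBit i = true → i < k
  uses : ∀ i : Fin k, acc.testBit i = true → m i ≠ i
  cm : ∀ i : Fin k, acc.testBit i = true → acc.testBit (m i) = true
  cb : ∀ i : Fin k, acc.testBit i = true → acc.testBit (b i) = true
  st : acc.testBit x0 = true
  reachs : ∀ i : Fin k, acc.testBit i = true →
    Relation.ReflTransGen (fun x y => y = m x ∨ y = b x) x0 i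

lemma orb_res {k : ℕ} (m b : Fin k → Fin k) (mc bc : ℕ)
    (hmi : ∀ j, m (m j) = j) (hbi : ∀ j, b (b j) = j) (hm : CodeB m mc) (hb : CodeB b bc)
    (hmb : ∀ j, m j ≠ j ↔ b j ≠ j) (x0 : Fin k) (f : ℕ) : ∀ (x : Fin k) (acc r : ℕ),
    Inv m b x0 x acc → orb mc bc x0 f x acc = some r → Res m b x0 r := by
  induction f with
  | zero =>
    intro x acc r _ h
    exact absurd h (by simp [orb])
  | succ f ih =>
    intro x acc r hI h
    rw [orb_succ, hm x, hb (m x)] at h
    set acc' := (acc ||| (1 <<< (x : ℕ))) ||| (1 <<< ((m x : Fin k) : ℕ)) with hacc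
    have hT : ∀ i : Fin k, acc'.testBit i = true ↔ acc.testBit i = true ∨ i = x ∨ i = m x := by
      intro i
      rw [hacc, testBit_acc, Fin.val_inj, Fin.val_inj]
    have hlt : ∀ i, acc'.testBit i = true → i < k := by
      intro i hi
      rw [hacc, testBit_acc] at hi
      rcases hi with hi | hi | hi
      · exact hI.lt i hi
      · rw [hi]; exact x.2
      · rw [hi]; exact (m x).2
    have hmx : m (m x) ≠ m x := by
      rw [hmi]
      exact hI.use.symm
    have huses : ∀ i : Fin k, acc'.testBit i = true → m i ≠ i := by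
      intro i hi
      rcases (hT i).1 hi with h1 | h1 | h1
      · exact hI.uses i h1
      · rw [h1]; exact hI.use
      · rw [h1]; exact hmx
    have hcm : ∀ i : Fin k, acc'.testBit i = true → acc'.testBit (m i) = true := by
      intro i hi
      rw [hT]
      rcases (hT i).1 hi with h1 | h1 | h1
      · exact Or.inl (hI.cm i h1)
      · rw [h1]; exact Or.inr (Or.inr rfl)
      · rw [h1, hmi]; exact Or.inr (Or.inl rfl)
    have hreach1 : Relation.ReflTransGen (fun x y => y = m x ∨ y = b x) x0 (m x) :=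
      hI.reach.tail (Or.inl rfl)
    have hreachs : ∀ i : Fin k, acc'.testBit i = true →
        Relation.ReflTransGen (fun x y => y = m x ∨ y = b x) x0 i := by
      intro i hi
      rcases (hT i).1 hi with h1 | h1 | h1
      · exact hI.reachs i h1
      · rw [h1]; exact hI.reach
      · rw [h1]; exact hreach1
    have hx0 : acc'.testBit x0 = true := by
      rw [hT]
      rcases hI.st with h1 | h1
      · exact Or.inr (Or.inl h1.symm)
      · exact Or.inl h1
    by_cases hz : b (m x) = x0
    · have h2 : Nat.beq ((b (m x) : Fin k) : ℕ) (x0 : ℕ) = true := by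
        rw [hz]; exact Nat.beq_refl _
      rw [h2, cond_true, Option.some_inj] at h
      subst h
      refine ⟨hlt, huses, hcm, ?_, hx0, hreachs⟩
      intro i hi
      rcases (hT i).1 hi with h1 | h1 | h1
      · rcases hI.cb i h1 with h3 | h3 | h3
        · exact (hT _).2 (Or.inl h3)
        · exact (hT _).2 (Or.inr (Or.inl h3))
        · rw [h3, ← hz, hbi]
          exact (hT _).2 (Or.inr (Or.inr rfl))
      · rw [h1]
        rcases hI.bx with h3 | h3
        · rw [h3, ← hz, hbi]
          exact (hT _).2 (Or.inr (Or.inr rfl))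
        · exact (hT _).2 (Or.inl h3)
      · rw [h1, hz]
        exact hx0
    · have h2 : Nat.beq ((b (m x) : Fin k) : ℕ) (x0 : ℕ) = false := by
        rw [← Bool.not_eq_true, Nat.beq_eq]
        exact fun h3 => hz (Fin.ext h3)
      rw [h2, cond_false] at h
      refine ih (b (m x)) acc' r ⟨hlt, ?_, huses, hcm, ?_, ?_, ?_, ?_, hreachs⟩ h
      · rw [hmb, hbi]
        exact ((hmb _).1 hmx).symm
      · intro i hi
        rcases (hT i).1 hi with h1 | h1 | h1
        · rcases hI.cb i h1 with h3 | h3 | h3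
          · exact Or.inl ((hT _).2 (Or.inl h3))
          · exact Or.inl ((hT _).2 (Or.inr (Or.inl h3)))
          · exact Or.inr (Or.inr h3)
        · rcases hI.bx with h3 | h3
          · exact Or.inr (Or.inr (h1.trans h3))
          · rw [h1]
            exact Or.inl ((hT _).2 (Or.inl h3))
        · rw [h1]
          exact Or.inr (Or.inl rfl)
      · right
        rw [hbi]
        exact (hT _).2 (Or.inr (Or.inr rfl))
      · exact Or.inr hx0
      · exact hreach1.tail (Or.inr rfl)

lemma start {k : ℕ} (m b : Fin k → Fin k) (x0 : Fin k) (h : m x0 ≠ x0) : Inv m b x0 x0 0 where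
  lt := fun i hi => by simp at hi
  use := h
  uses := fun i hi => by simp at hi
  cm := fun i hi => by simp at hi
  cb := fun i hi => by simp at hi
  bx := Or.inl rfl
  st := Or.inl rfl
  reach := Relation.ReflTransGen.refl
  reachs := fun i hi => by simp at hi

lemma log2_lt {k U : ℕ} (hU : U ≠ 0) (h : U < 2 ^ k) : Nat.log2 U < k :=
  (Nat.log2_lt hU).2 h

lemma main {k : ℕ} (m b : Fin k → Fin k) (mc bc U : ℕ)
    (hmi : ∀ j, m (m j) = j) (hbi : ∀ j, b (b j) = j) (hm : CodeB m mc) (hb : CodeB b bc)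
    (hmU : CodeU m U) (hbU : CodeU b U) (hU : U ≠ 0) (r : ℕ)
    (h : orb mc bc (Nat.log2 U) k (Nat.log2 U) 0 = some r) :
    ∃ x0 : Fin k, m x0 ≠ x0 ∧ Res m b x0 r := by
  have hmb : ∀ j, m j ≠ j ↔ b j ≠ j := fun j => (hmU.2 j).symm.trans (hbU.2 j)
  refine ⟨⟨Nat.log2 U, log2_lt hU hmU.1⟩, ?_, ?_⟩
  · rw [← hmU.2, tb_eq]
    exact Nat.testBit_log2 hU
  · refine orb_res m b mc bc hmi hbi hm hb hmb ⟨Nat.log2 U, log2_lt hU hmU.1⟩ k
      ⟨Nat.log2 U, log2_lt hU hmU.1⟩ 0 r (start m b _ ?_) h
    rw [← hmU.2, tb_eq]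
    exact Nat.testBit_log2 hU

end SingAux

open SingAux

/-- FS-3a -/
theorem sing'_pos {k : ℕ} (hk : k ≤ 15) (m b : Fin k → Fin k) (mc bc U : ℕ)
    (hmi : ∀ j, m (m j) = j) (hbi : ∀ j, b (b j) = j) (hm : CodeB m mc) (hb : CodeB b bc)
    (hmU : CodeU m U) (hbU : CodeU b U) (h : sing' k mc bc U = true) (i j : Fin k) (hi : m i ≠ i)
    (hj : m j ≠ j) : Relation.ReflTransGen (fun x y => y = m x ∨ y = b x) i j := by
  have hi' := (hmU.2 i).2 hi
  have hj' := (hmU.2 j).2 hj
  rw [tb_eq] at hi' hj'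
  have hU : U ≠ 0 := by
    rintro rfl
    simp at hi'
  have h1 : sing' k mc bc U = match orb mc bc (Nat.log2 U) k (Nat.log2 U) 0 with
    | none => false
    | some r => Nat.beq r U := rfl
  rw [h1] at h
  cases h2 : orb mc bc (Nat.log2 U) k (Nat.log2 U) 0 with
  | none => rw [h2] at h; exact absurd h (by simp)
  | some r =>
    rw [h2] at h
    have h3 : r = U := Nat.eq_of_beq_eq_true h
    subst h3
    obtain ⟨x0, hx0, hR⟩ := main m b mc bc r hmi hbi hm hb hmU hbU hU r h2
    have hsym : ∀ x y : Fin k, Relation.ReflTransGen (fun x y => y = m x ∨ y = b x) x y →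
        Relation.ReflTransGen (fun x y => y = m x ∨ y = b x) y x := by
      intro x y hxy
      induction hxy with
      | refl => exact Relation.ReflTransGen.refl
      | tail _ huv ih =>
        refine Relation.ReflTransGen.trans (Relation.ReflTransGen.single ?_) ih
        rcases huv with huv | huv
        · left; rw [huv, hmi]
        · right; rw [huv, hbi]
    exact (hsym _ _ (hR.reachs i hi')).trans (hR.reachs j hj')

/-- FS-3b -/
theorem sing_neg {k : ℕ} (hk : k ≤ 15) (m b : Fin k → Fin k) (mc bc U : ℕ)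
    (hmi : ∀ j, m (m j) = j) (hbi : ∀ j, b (b j) = j) (hm : CodeB m mc) (hb : CodeB b bc)
    (hmU : CodeU m U) (hbU : CodeU b U) (hU : U ≠ 0) (h : sing k mc bc U = false) :
    ∃ A : Fin k → Bool, (∃ j, m j ≠ j ∧ A j = true) ∧ (∃ j, m j ≠ j ∧ A j = false) ∧
      ∀ j, A (m j) = A j ∧ A (b j) = A j := by
  have h1 : sing k mc bc U = match orb mc bc (Nat.log2 U) k (Nat.log2 U) 0 with
    | none => true
    | some r => Nat.beq r U := rfl
  rw [h1] at h
  cases h2 : orb mc bc (Nat.log2 U) k (Nat.log2 U) 0 with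
  | none => rw [h2] at h; exact absurd h (by simp)
  | some r =>
    rw [h2] at h
    have h3 : r ≠ U := by
      intro h3
      have h4 : Nat.beq r U = true := by rw [h3]; exact Nat.beq_refl _
      have h5 : Nat.beq r U = false := h
      rw [h4] at h5
      exact Bool.noConfusion h5
    obtain ⟨x0, hx0, hR⟩ := main m b mc bc U hmi hbi hm hb hmU hbU hU r h2
    refine ⟨fun j => r.testBit j, ⟨x0, hx0, hR.st⟩, ?_, fun j => ⟨?_, ?_⟩⟩
    · by_contra hcon
      push Not at hcon
      apply h3
      refine Nat.eq_of_testBit_eq fun i => ?_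
      by_cases hi : i < k
      · rw [Bool.eq_iff_iff]
        constructor
        · intro h4
          have h5 := (hmU.2 ⟨i, hi⟩).2 (hR.uses ⟨i, hi⟩ h4)
          rw [tb_eq] at h5
          exact h5
        · intro h4
          have h5 := hcon ⟨i, hi⟩ ((hmU.2 ⟨i, hi⟩).1 (by rw [tb_eq]; exact h4))
          simpa using h5
      · rw [Nat.testBit_lt_two_pow (lt_of_lt_of_le hmU.1 (Nat.pow_le_pow_right (by norm_num)
          (not_lt.1 hi)))]
        rw [← Bool.not_eq_true]
        exact fun h4 => hi (hR.lt i h4)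
    · rw [Bool.eq_iff_iff]
      exact ⟨fun h4 => by simpa only [hmi] using hR.cm (m j) h4, fun h4 => hR.cm j h4⟩
    · rw [Bool.eq_iff_iff]
      exact ⟨fun h4 => by simpa only [hbi] using hR.cb (b j) h4, fun h4 => hR.cb j h4⟩

end Pool.Agent.Helper17.CT
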