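import Pool.Agent.Helper17.CT.Defs

set_option autoImplicit false

/-!
# Modules CT-2 (pairing) and CT-3 (alternate)
-/

namespace Pool.Agent.Helper17.CT

namespace ct2

variable {H : Type} {k : ℕ} (N : Pole H k) (O : H → Bool)

/-- the other used dart at the vertex of a used dart -/
def sig [DecidableEq H] (d : H) : H :=
  if N.s d = d then d else if O (N.s d) = true then N.s d else N.s (N.s d)

variable {N O}

theorem step_symm {x y : H} (h : Step N.s N.a O x y) : Step N.s N.a O y x := by
  obtain ⟨h1, h2, h3⟩ := h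
  refine ⟨h2, h1, ?_⟩
  rcases h3 with h | h | h
  · left; rw [h, N.a2]
  · right; right; rw [h, N.s3]
  · right; left; rw [h, N.s3]

theorem conn_symm {x y : H} (h : Conn N.s N.a O x y) : Conn N.s N.a O y x := by
  induction h with
  | refl => exact .refl
  | tail _ h ih => exact .head (step_symm h) ih

theorem s_ne {d : H} (h : N.s d ≠ d) : N.s (N.s d) ≠ N.s d := by
  intro h1
  apply h
  have h2 := N.s3 d
  rw [h1, h1] at h2
  exact h2

theorem ss_ne {d : H} (h : N.s d ≠ d) : N.s (N.s d) ≠ d := by
  intro h1
  apply h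
  have h2 := N.s3 d
  rwa [h1] at h2

variable [DecidableEq H]

theorem sig_cases (hO : N.Fac O) {d : H} (hd : O d = true) :
    (N.s d = d ∧ sig N O d = d) ∨
    (N.s d ≠ d ∧ O (N.s d) = true ∧ O (N.s (N.s d)) = false ∧ sig N O d = N.s d) ∨
    (N.s d ≠ d ∧ O (N.s d) = false ∧ O (N.s (N.s d)) = true ∧ sig N O d = N.s (N.s d)) := by
  by_cases h : N.s d = d
  · left; exact ⟨h, by simp [sig, h]⟩
  · right
    have h1 := hO.one d h
    unfold One at h1
    rw [hd] at h1
    by_cases h2 : O (N.s d) = true
    · left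
      refine ⟨h, h2, ?_, by simp [sig, h, h2]⟩
      rw [h2] at h1
      simpa using h1
    · right
      refine ⟨h, by simpa using h2, ?_, by simp [sig, h, h2]⟩
      rw [Bool.not_eq_true] at h2
      rw [h2] at h1
      simpa using h1

theorem used_sig (hO : N.Fac O) {d : H} (hd : O d = true) : O (sig N O d) = true := by
  rcases sig_cases hO hd with h | h | h
  · rw [h.2, hd]
  · rw [h.2.2.2, h.2.1]
  · rw [h.2.2.2, h.2.2.1]

omit [DecidableEq H] in
theorem used_a (hO : N.Fac O) {d : H} (hd : O d = true) : O (N.a d) = true := by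
  rw [hO.acl, hd]

theorem sig_sig (hO : N.Fac O) {d : H} (hd : O d = true) : sig N O (sig N O d) = d := by
  rcases sig_cases hO hd with h | h | h
  · rw [h.2, h.2]
  · rw [h.2.2.2, sig, if_neg (s_ne h.1), if_neg (by simp [h.2.2.1]), N.s3]
  · rw [h.2.2.2, sig, if_neg (by rw [N.s3]; exact fun h' => ss_ne h.1 h'.symm),
      if_pos (by rw [N.s3, hd]), N.s3]

theorem sig_eq_self (hO : N.Fac O) {d : H} (hd : O d = true) : sig N O d = d ↔ N.s d = d := by
  constructor
  · intro h1
    rcases sig_cases hO hd with h | h | h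
    · exact h.1
    · rwa [h.2.2.2] at h1
    · rw [h.2.2.2] at h1
      exact absurd h1 (ss_ne h.1)
  · intro h; simp [sig, h]

theorem step_cases (hO : N.Fac O) {x y : H} (h : Step N.s N.a O x y) :
    y = N.a x ∨ y = sig N O x ∨ y = x := by
  obtain ⟨h1, h2, h3⟩ := h
  rcases h3 with h | h | h
  · exact Or.inl h
  · right
    rcases sig_cases hO h1 with h' | h' | h'
    · right; rw [h, h'.1]
    · left; rw [h, h'.2.2.2]
    · rw [h, h'.2.1] at h2
      exact absurd h2 (by simp)
  · right
    rcases sig_cases hO h1 with h' | h' | h'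
    · right; rw [h, h'.1, h'.1]
    · rw [h, h'.2.2.1] at h2
      exact absurd h2 (by simp)
    · left; rw [h, h'.2.2.2]

theorem step_a (hO : N.Fac O) {x : H} (hx : O x = true) : Step N.s N.a O x (N.a x) :=
  ⟨hx, used_a hO hx, Or.inl rfl⟩

theorem step_sig (hO : N.Fac O) {x : H} (hx : O x = true) : Step N.s N.a O x (sig N O x) := by
  refine ⟨hx, used_sig hO hx, Or.inr ?_⟩
  rcases sig_cases hO hx with h | h | h
  · left; rw [h.2, h.1]
  · left; exact h.2.2.2
  · right; exact h.2.2.2

/-- the walk from `p`: the darts at even places -/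
def u (N : Pole H k) (O : H → Bool) (p : H) : ℕ → H
  | 0 => p
  | n + 1 => sig N O (N.a (u N O p n))

theorem u_zero (p : H) : u N O p 0 = p := rfl

theorem u_succ (p : H) (n : ℕ) : u N O p (n + 1) = sig N O (N.a (u N O p n)) := rfl

theorem u_used (hO : N.Fac O) {p : H} (hp : O p = true) (n : ℕ) : O (u N O p n) = true := by
  induction n with
  | zero => exact hp
  | succ n ih => exact used_sig hO (used_a hO ih)

theorem sig_u (hO : N.Fac O) {p : H} (hp : O p = true) (n : ℕ) :
    sig N O (u N O p (n + 1)) = N.a (u N O p n) := by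
  rw [u_succ, sig_sig hO (used_a hO (u_used hO hp n))]

theorem u_conn (hO : N.Fac O) {p : H} (hp : O p = true) (n : ℕ) :
    Conn N.s N.a O p (u N O p n) := by
  induction n with
  | zero => exact .refl
  | succ n ih =>
    exact (ih.tail (step_a hO (u_used hO hp n))).tail
      (step_sig hO (used_a hO (u_used hO hp n)))

theorem v_conn (hO : N.Fac O) {p : H} (hp : O p = true) (n : ℕ) :
    Conn N.s N.a O p (N.a (u N O p n)) :=
  (u_conn hO hp n).tail (step_a hO (u_used hO hp n))

theorem u_desc (hO : N.Fac O) {p : H} (hp : O p = true) (i r : ℕ)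
    (h : u N O p i = u N O p (i + r)) : u N O p 0 = u N O p r := by
  induction i with
  | zero => simpa using h
  | succ i ih =>
    apply ih
    have h1 := congrArg (sig N O) h
    rw [sig_u hO hp, show i + 1 + r = (i + r) + 1 by ring, sig_u hO hp] at h1
    have h2 := congrArg N.a h1
    rwa [N.a2, N.a2] at h2

/-- the component of a port -/
theorem conn_u (hO : N.Fac O) {p : H} (hp : O p = true) (hs : N.s p = p) {y : H}
    (h : Conn N.s N.a O p y) : ∃ n, y = u N O p n ∨ y = N.a (u N O p n) := by
  induction h with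
  | refl => exact ⟨0, Or.inl rfl⟩
  | tail _ h ih =>
    obtain ⟨n, hn⟩ := ih
    rcases step_cases hO h with h' | h' | h'
    · rcases hn with hn | hn
      · exact ⟨n, Or.inr (by rw [h', hn])⟩
      · exact ⟨n, Or.inl (by rw [h', hn, N.a2])⟩
    · rcases hn with hn | hn
      · rcases n with _ | n
        · exact ⟨0, Or.inl (by rw [h', hn, u_zero, (sig_eq_self hO hp).2 hs])⟩
        · exact ⟨n, Or.inr (by rw [h', hn, sig_u hO hp])⟩
      · exact ⟨n + 1, Or.inl (by rw [h', hn, u_succ])⟩
    · exact ⟨n, by rw [h']; exact hn⟩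

theorem exists_end [Finite H] (hO : N.Fac O) {p : H} (hp : O p = true) (hs : N.s p = p) :
    ∃ n, N.s (N.a (u N O p n)) = N.a (u N O p n) := by
  obtain ⟨i, j, hij, h⟩ := Finite.exists_ne_map_eq_of_infinite (u N O p)
  wlog hlt : i < j generalizing i j
  · exact this j i hij.symm h.symm (lt_of_le_of_ne (not_lt.1 hlt) hij.symm)
  obtain ⟨r, rfl⟩ := Nat.exists_eq_add_of_lt hlt
  have h1 := u_desc hO hp i (r + 1) (by rw [← add_assoc]; exact h)
  have h2 := sig_u hO hp r
  rw [← h1, u_zero, (sig_eq_self hO hp).2 hs] at h2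
  exact ⟨r, by rw [← h2, hs]⟩

theorem partner [Finite H] (hO : N.Fac O) {p : H} (hp : O p = true) (hs : N.s p = p) :
    ∃ p', p' ≠ p ∧ O p' = true ∧ N.s p' = p' ∧ Conn N.s N.a O p p' ∧
      ∀ y, Conn N.s N.a O p y → N.s y = y → y = p ∨ y = p' := by
  classical
  have hex := exists_end hO hp hs
  obtain ⟨m, hm, hmin⟩ : ∃ m, N.s (N.a (u N O p m)) = N.a (u N O p m) ∧
      ∀ i < m, N.s (N.a (u N O p i)) ≠ N.a (u N O p i) :=
    ⟨Nat.find hex, Nat.find_spec hex, fun i hi => Nat.find_min hex hi⟩
  have hsig : ∀ n, sig N O (N.a (u N O p n)) = N.a (u N O p n) ↔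
      N.s (N.a (u N O p n)) = N.a (u N O p n) := fun n =>
    sig_eq_self hO (used_a hO (u_used hO hp n))
  refine ⟨N.a (u N O p m), ?_, used_a hO (u_used hO hp m), hm, v_conn hO hp m, ?_⟩
  · intro h0
    have key : ∀ i ≤ m, u N O p (m - i) = N.a (u N O p i) := by
      intro i
      induction i with
      | zero =>
        intro _
        have h1 := congrArg N.a h0
        rw [N.a2] at h1
        rw [Nat.sub_zero, u_zero]
        exact h1
      | succ i ih =>
        intro hi
        have h1 := ih (by omega)
        obtain ⟨q, hq⟩ : ∃ q, m - i = q + 1 := ⟨m - i - 1, by omega⟩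
        have hq' : m - (i + 1) = q := by omega
        have h2 := congrArg (sig N O) h1
        rw [hq, sig_u hO hp] at h2
        have h3 := congrArg N.a h2
        rw [N.a2] at h3
        rw [hq', h3, u_succ]
    obtain ⟨i, hi | hi⟩ : ∃ i, m = 2 * i ∨ m = 2 * i + 1 := ⟨m / 2, by omega⟩
    · have h1 := key i (by omega)
      rw [show m - i = i by omega] at h1
      exact N.a1 _ h1.symm
    · have h1 := key i (by omega)
      rw [show m - i = i + 1 by omega, u_succ, hsig] at h1
      exact hmin i (by omega) h1
  · intro y hy hys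
    -- every vertex of the component is `u n` or `a (u n)` with `n ≤ m`
    have hcl : ∃ n ≤ m, y = u N O p n ∨ y = N.a (u N O p n) := by
      clear hys
      induction hy with
      | refl => exact ⟨0, Nat.zero_le _, Or.inl rfl⟩
      | tail _ h ih =>
        obtain ⟨n, hnm, hn⟩ := ih
        rcases step_cases hO h with h' | h' | h'
        · rcases hn with hn | hn
          · exact ⟨n, hnm, Or.inr (by rw [h', hn])⟩
          · exact ⟨n, hnm, Or.inl (by rw [h', hn, N.a2])⟩
        · rcases hn with hn | hn
          · rcases n with _ | n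
            · exact ⟨0, Nat.zero_le _, Or.inl (by rw [h', hn, u_zero, (sig_eq_self hO hp).2 hs])⟩
            · exact ⟨n, by omega, Or.inr (by rw [h', hn, sig_u hO hp])⟩
          · rcases eq_or_lt_of_le hnm with rfl | hlt
            · exact ⟨n, le_rfl, Or.inr (by rw [h', hn, (hsig n).2 hm])⟩
            · exact ⟨n + 1, hlt, Or.inl (by rw [h', hn, u_succ])⟩
        · exact ⟨n, hnm, by rw [h']; exact hn⟩
    obtain ⟨n, hnm, hn⟩ := hcl
    rcases hn with hn | hn
    · rcases n with _ | n
      · left; rw [hn, u_zero]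
      · exfalso
        have h1 : sig N O y = y := by
          rw [sig_eq_self hO (by rw [hn]; exact u_used hO hp _)]
          exact hys
        rw [hn, sig_u hO hp] at h1
        refine hmin n (by omega) ?_
        rw [h1, ← hn]
        exact hys
    · rcases eq_or_lt_of_le hnm with rfl | hlt
      · right; exact hn
      · exact absurd (by rw [← hn]; exact hys) (hmin n hlt)

/-- the distance from the port `p` along the path -/
noncomputable def lvl (N : Pole H k) (O : H → Bool) (p x : H) : ℕ :=
  sInf {n | x = u N O p n ∨ x = N.a (u N O p n)}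

theorem lvl_a (p x : H) : lvl N O p (N.a x) = lvl N O p x := by
  unfold lvl
  congr 1
  ext n
  constructor
  · rintro (h | h)
    · exact Or.inr (by rw [← h, N.a2])
    · refine Or.inl ?_
      have := congrArg N.a h
      rwa [N.a2, N.a2] at this
  · rintro (h | h)
    · exact Or.inr (by rw [h])
    · exact Or.inl (by rw [h, N.a2])

theorem lvl_sig (hO : N.Fac O) {p : H} (hp : O p = true) (hs : N.s p = p) {x : H}
    (hx : Conn N.s N.a O p x) (hne : sig N O x ≠ x) :
    Odd (lvl N O p (sig N O x)) ↔ ¬ Odd (lvl N O p x) := by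
  have hux : O x = true := by
    obtain ⟨n, hn | hn⟩ := conn_u hO hp hs hx
    · rw [hn]; exact u_used hO hp n
    · rw [hn]; exact used_a hO (u_used hO hp n)
  have hy : Conn N.s N.a O p (sig N O x) := hx.tail (step_sig hO hux)
  have h1 : x = u N O p (lvl N O p x) ∨ x = N.a (u N O p (lvl N O p x)) :=
    Nat.sInf_mem (s := {n | x = u N O p n ∨ x = N.a (u N O p n)}) (conn_u hO hp hs hx)
  have h2 : sig N O x = u N O p (lvl N O p (sig N O x)) ∨
      sig N O x = N.a (u N O p (lvl N O p (sig N O x))) :=
    Nat.sInf_mem (s := {n | sig N O x = u N O p n ∨ sig N O x = N.a (u N O p n)})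
      (conn_u hO hp hs hy)
  have hmx : ∀ n, (x = u N O p n ∨ x = N.a (u N O p n)) → lvl N O p x ≤ n :=
    fun n h => Nat.sInf_le h
  have hmy : ∀ n, (sig N O x = u N O p n ∨ sig N O x = N.a (u N O p n)) →
      lvl N O p (sig N O x) ≤ n := fun n h => Nat.sInf_le h
  generalize lvl N O p x = lx at *
  generalize lvl N O p (sig N O x) = ly at *
  rcases h1 with h1 | h1
  · rcases lx with _ | lx
    · exact absurd (by rw [h1, u_zero, (sig_eq_self hO hp).2 hs]) hne
    · have h3 : sig N O x = N.a (u N O p lx) := by rw [h1, sig_u hO hp]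
      have h4 := hmy lx (Or.inr h3)
      have h5 : lx ≤ ly := by

        rcases h2 with h2 | h2
        · rcases ly with _ | ly
          · exfalso
            have h6 : x = p := by
              rw [← sig_sig hO hux, h2, u_zero, (sig_eq_self hO hp).2 hs]
            exact hne (by rw [h6, (sig_eq_self hO hp).2 hs])
          · have h6 : x = N.a (u N O p ly) := by rw [← sig_sig hO hux, h2, sig_u hO hp]
            have := hmx ly (Or.inr h6)
            omega
        · have h6 : x = u N O p (ly + 1) := by rw [← sig_sig hO hux, h2, u_succ]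
          have := hmx (ly + 1) (Or.inl h6)
          omega
      have h6 : ly = lx := le_antisymm h4 h5
      rw [h6, Nat.odd_add_one, not_not]
  · have h3 : sig N O x = u N O p (lx + 1) := by rw [h1, u_succ]
    have h4 := hmy (lx + 1) (Or.inl h3)
    have h5 : lx ≤ ly + 1 := by
      rcases h2 with h2 | h2
      · rcases ly with _ | ly
        · exfalso
          have h6 : x = p := by
            rw [← sig_sig hO hux, h2, u_zero, (sig_eq_self hO hp).2 hs]
          exact hne (by rw [h6, (sig_eq_self hO hp).2 hs])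
        · have h6 : x = N.a (u N O p ly) := by rw [← sig_sig hO hux, h2, sig_u hO hp]
          have := hmx ly (Or.inr h6)
          omega
      · have h6 : x = u N O p (ly + 1) := by rw [← sig_sig hO hux, h2, u_succ]
        exact hmx (ly + 1) (Or.inl h6)
    have h6 : ly ≠ lx := by
      rintro rfl
      rcases h2 with h2 | h2
      · 
        have h7 : u N O p ly = u N O p (ly + 1) := by rw [← h2, h3]
        have h8 := u_desc hO hp ly 1 h7
        rw [u_zero, u_succ, u_zero] at h8
        have h9 := congrArg (sig N O) h8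
        rw [sig_sig hO (used_a hO hp), (sig_eq_self hO hp).2 hs] at h9
        exact N.a1 _ h9.symm
      · exact hne (h2.trans h1.symm)
    have h7 : ly = lx + 1 ∨ ly + 1 = lx := by omega
    rcases h7 with rfl | rfl
    · rw [Nat.odd_add_one]
    · rw [Nat.odd_add_one, not_not]

end ct2

section poles

variable {H : Type} {k : ℕ} (N : Pole H k)

open ct2 in
/-- CT-2 -/
theorem pairing [Finite H] (O : H → Bool) (hO : N.Fac O) :
    ∃ b : Fin k → Fin k, (∀ j, b (b j) = j) ∧ (∀ j, O (N.port j) = true ↔ b j ≠ j) ∧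
      (∀ j, O (N.port j) = true → Conn N.s N.a O (N.port j) (N.port (b j))) ∧
      ∀ i j, O (N.port i) = true → Conn N.s N.a O (N.port i) (N.port j) → j = i ∨ j = b i := by
  classical
  have hps : ∀ j, N.s (N.port j) = N.port j := fun j => (N.piff _).2 ⟨j, rfl⟩
  have hex : ∀ j, ∃ j', (O (N.port j) = false → j' = j) ∧ (O (N.port j) = true →
      j' ≠ j ∧ O (N.port j') = true ∧ Conn N.s N.a O (N.port j) (N.port j') ∧
      ∀ i, Conn N.s N.a O (N.port j) (N.port i) → i = j ∨ i = j') := by
    intro j
    by_cases hj : O (N.port j) = true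
    · obtain ⟨p', h1, h2, h3, h4, h5⟩ := partner hO hj (hps j)
      obtain ⟨j', rfl⟩ := (N.piff p').1 h3
      refine ⟨j', fun h => absurd hj (by simp [h]), fun _ => ⟨fun h => h1 (by rw [h]), h2, h4,
        fun i hi => ?_⟩⟩
      rcases h5 _ hi (hps i) with h | h
      · exact Or.inl (N.pinj h)
      · exact Or.inr (N.pinj h)
    · exact ⟨j, fun _ => rfl, fun h => absurd h hj⟩
  choose b hb0 hb1 using hex
  refine ⟨b, fun j => ?_, fun j => ?_, fun j hj => (hb1 j hj).2.2.1,
    fun i j hi hij => (hb1 i hi).2.2.2 j hij⟩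
  · by_cases hj : O (N.port j) = true
    · obtain ⟨h1, h2, h3, h4⟩ := hb1 j hj
      obtain ⟨h1', h2', h3', h4'⟩ := hb1 (b j) h2
      rcases h4' j (conn_symm h3) with h | h
      · exact absurd h.symm h1
      · exact h.symm
    · have := hb0 j (by simpa using hj)
      rw [this, this]
  · constructor
    · exact fun hj => (hb1 j hj).1
    · intro h
      by_contra hj
      exact h (hb0 j (by simpa using hj))

open ct2 in
/-- CT-3 -/
theorem alternate [Finite H] (O : H → Bool) (hO : N.Sys O) :
    ∃ α : H → Bool, (∀ x, O x = true → α (N.a x) = α x) ∧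
      ∀ x, N.s x ≠ x → O x = true → O (N.s x) = true → α (N.s x) = !α x := by
  classical
  have hF : N.Fac O := hO.toFac
  let P : H → H := fun x => @Classical.epsilon H ⟨x⟩
    (fun p => Conn N.s N.a O x p ∧ N.s p = p ∧ O p = true)
  have hP : ∀ x, O x = true → Conn N.s N.a O x (P x) ∧ N.s (P x) = P x ∧ O (P x) = true := by
    intro x hx
    obtain ⟨j, hj1, hj2⟩ := hO.loopless x hx
    exact @Classical.epsilon_spec H
      (fun p => Conn N.s N.a O x p ∧ N.s p = p ∧ O p = true)
      ⟨N.port j, hj2, (N.piff _).2 ⟨j, rfl⟩, hj1⟩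
  have hPc : ∀ x y, Step N.s N.a O x y → P x = P y := by
    intro x y hxy
    have h1 : (fun p => Conn N.s N.a O x p ∧ N.s p = p ∧ O p = true) =
        (fun p => Conn N.s N.a O y p ∧ N.s p = p ∧ O p = true) := by
      funext p
      apply propext
      constructor
      · rintro ⟨h1, h2⟩
        exact ⟨Relation.ReflTransGen.head (step_symm hxy) h1, h2⟩
      · rintro ⟨h1, h2⟩
        exact ⟨Relation.ReflTransGen.head hxy h1, h2⟩
    simp only [P]
    congr 1
  refine ⟨fun x => decide (Odd (lvl N O (P x) x)), fun x hx => ?_, fun x hs hx hsx => ?_⟩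
  · change decide (Odd (lvl N O (P (N.a x)) (N.a x))) = decide (Odd (lvl N O (P x) x))
    rw [← hPc x (N.a x) (step_a hF hx), lvl_a]
  · have hsig : sig N O x = N.s x := by
      rcases sig_cases hF hx with h | h | h
      · exact absurd h.1 hs
      · exact h.2.2.2
      · rw [h.2.1] at hsx
        exact absurd hsx (by simp)
    change decide (Odd (lvl N O (P (N.s x)) (N.s x))) = !decide (Odd (lvl N O (P x) x))
    rw [← hsig, ← hPc x _ (step_sig hF hx)]
    obtain ⟨h1, h2, h3⟩ := hP x hx
    have h4 := lvl_sig hF h3 h2 (conn_symm h1) (fun h => hs ((sig_eq_self hF hx).1 h))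
    by_cases h5 : Odd (lvl N O (P x) x)
    · simp only [h5, decide_true, Bool.not_true, decide_eq_false_iff_not]
      exact fun h => (h4.1 h) h5
    · simp only [h5, decide_false, Bool.not_false, decide_eq_true_eq]
      exact h4.2 h5

end poles

end Pool.Agent.Helper17.CT
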